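import Pool.Agent.Helper89.UB.Stmts

set_option autoImplicit false

open Finset

namespace Pool.Agent.Helper89.UB

/-- convolution of set functions -/
def kcol_cv {n : ℕ} (a b : Finset (Fin n) → ℤ) (W : Finset (Fin n)) : ℤ :=
  ∑ S ∈ W.powerset, a S * b (W \ S)

theorem kcol_comm {n : ℕ} (a b : Finset (Fin n) → ℤ) (W : Finset (Fin n)) :
    kcol_cv a b W = kcol_cv b a W := by
  unfold kcol_cv
  apply Finset.sum_nbij' (fun S => W \ S) (fun S => W \ S)
  · intro S _
    exact Finset.mem_powerset.2 Finset.sdiff_subset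
  · intro S _
    exact Finset.mem_powerset.2 Finset.sdiff_subset
  · intro S hS
    exact Finset.sdiff_sdiff_eq_self (Finset.mem_powerset.1 hS)
  · intro S hS
    exact Finset.sdiff_sdiff_eq_self (Finset.mem_powerset.1 hS)
  · intro S hS
    rw [Finset.sdiff_sdiff_eq_self (Finset.mem_powerset.1 hS), mul_comm]

theorem kcol_assoc {n : ℕ} (a b c : Finset (Fin n) → ℤ) (W : Finset (Fin n)) :
    kcol_cv (kcol_cv a b) c W = kcol_cv a (kcol_cv b c) W := by
  unfold kcol_cv
  have h1 : ∀ S ∈ W.powerset, (∑ T ∈ S.powerset, a T * b (S \ T)) * c (W \ S) =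
      ∑ T ∈ S.powerset, a T * b (S \ T) * c (W \ S) := by
    intro S _
    rw [Finset.sum_mul]
  have h2 : ∀ T ∈ W.powerset, a T * (∑ U ∈ (W \ T).powerset, b U * c ((W \ T) \ U)) =
      ∑ U ∈ (W \ T).powerset, a T * (b U * c ((W \ T) \ U)) := by
    intro T _
    rw [Finset.mul_sum]
  rw [Finset.sum_congr rfl h1, Finset.sum_congr rfl h2, Finset.sum_sigma', Finset.sum_sigma']
  apply Finset.sum_nbij' (fun p : (Σ _ : Finset (Fin n), Finset (Fin n)) => ⟨p.2, p.1 \ p.2⟩)
    (fun p : (Σ _ : Finset (Fin n), Finset (Fin n)) => ⟨p.1 ∪ p.2, p.1⟩)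
  · rintro ⟨S, T⟩ h
    simp only [Finset.mem_sigma, Finset.mem_powerset] at h ⊢
    exact ⟨h.2.trans h.1, Finset.sdiff_subset_sdiff h.1 (Finset.Subset.refl _)⟩
  · rintro ⟨T, U⟩ h
    simp only [Finset.mem_sigma, Finset.mem_powerset] at h ⊢
    exact ⟨Finset.union_subset h.1 (h.2.trans Finset.sdiff_subset), Finset.subset_union_left⟩
  · rintro ⟨S, T⟩ h
    simp only [Finset.mem_sigma, Finset.mem_powerset] at h
    have : T ∪ S \ T = S := Finset.union_sdiff_of_subset h.2
    simp only [this]
  · rintro ⟨T, U⟩ h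
    simp only [Finset.mem_sigma, Finset.mem_powerset] at h
    have hd : Disjoint U T := (Finset.subset_sdiff.1 h.2).2
    have : (T ∪ U) \ T = U := by
      rw [Finset.union_sdiff_distrib, Finset.sdiff_self, Finset.empty_union]
      exact Finset.sdiff_eq_self_of_disjoint hd
    simp only [this]
  · rintro ⟨S, T⟩ h
    simp only [Finset.mem_sigma, Finset.mem_powerset] at h
    have : (W \ T) \ (S \ T) = W \ S := by
      ext z
      simp only [Finset.mem_sdiff]
      constructor
      · rintro ⟨⟨h1, h2⟩, h3⟩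
        exact ⟨h1, fun h4 => h3 ⟨h4, h2⟩⟩
      · rintro ⟨h1, h2⟩
        exact ⟨⟨h1, fun h4 => h2 (h.2 h4)⟩, fun h4 => h2 h4.1⟩
    simp only [this]
    ring

theorem kcol_left {n : ℕ} (a b c : Finset (Fin n) → ℤ) (W : Finset (Fin n)) :
    kcol_cv a (kcol_cv b c) W = kcol_cv b (kcol_cv a c) W := by
  rw [← kcol_assoc, ← kcol_assoc]
  unfold kcol_cv
  apply Finset.sum_congr rfl
  intro S _
  have := kcol_comm a b S
  unfold kcol_cv at this
  rw [this]

theorem st_KCOL : ST_KCOL := by
  intro n E hE
  have hf0 : fz E ∅ = 1 := by simp [fz, hE]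
  intro q
  induction q with
  | zero =>
    intro W v hv
    have : W ≠ ∅ := Finset.ne_empty_of_mem hv
    simp [pw, this]
  | succ q ih =>
    intro W v hv
    obtain ⟨W', hvW', rfl⟩ : ∃ W', v ∉ W' ∧ insert v W' = W :=
      ⟨W.erase v, Finset.notMem_erase v W, Finset.insert_erase hv⟩
    rw [Finset.erase_insert hvW']
    have hp : ∀ (V : Finset (Fin n)), pw (fz E) (q + 1) V = kcol_cv (fz E) (pw (fz E) q) V :=
      fun V => rfl
    have hfun : pw (fz E) (q + 1) = kcol_cv (fz E) (pw (fz E) q) := funext hp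
    have hκ : ∀ S, kcol_cv (kap E v) (fz E) S = fz E (insert v S) := by
      intro S
      have := quo_spec (fz E) (fun B => fz E (insert v B)) hf0 S
      exact this.symm
    have hA : ∑ S ∈ W'.powerset, fz E (insert v S) * pw (fz E) q (insert v W' \ insert v S) =
        kcol_cv (kap E v) (pw (fz E) (q + 1)) W' := by
      rw [hfun, ← kcol_assoc]
      unfold kcol_cv
      apply Finset.sum_congr rfl
      intro S hS
      have h1 : insert v W' \ insert v S = W' \ S := by
        ext z
        simp only [Finset.mem_sdiff, Finset.mem_insert]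
        constructor
        · rintro ⟨h2 | h2, h3⟩
          · exact absurd (Or.inl h2) h3
          · exact ⟨h2, fun h4 => h3 (Or.inr h4)⟩
        · rintro ⟨h2, h3⟩
          refine ⟨Or.inr h2, ?_⟩
          rintro (h4 | h4)
          · exact hvW' (h4 ▸ h2)
          · exact h3 h4
      rw [h1]
      have h2 := hκ S
      unfold kcol_cv at h2
      rw [h2]
    have hB : ∑ S ∈ W'.powerset, fz E S * pw (fz E) q (insert v W' \ S) =
        q * kcol_cv (kap E v) (pw (fz E) (q + 1)) W' := by
      rw [hfun, ← kcol_left]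
      unfold kcol_cv
      rw [Finset.mul_sum]
      apply Finset.sum_congr rfl
      intro S hS
      have hS' := Finset.mem_powerset.1 hS
      have hvS : v ∉ S := fun h => hvW' (hS' h)
      have hm : v ∈ insert v W' \ S := Finset.mem_sdiff.2 ⟨Finset.mem_insert_self _ _, hvS⟩
      have h1 := ih (insert v W' \ S) v hm
      have h2 : (insert v W' \ S).erase v = W' \ S := by
        ext z
        simp only [Finset.mem_erase, Finset.mem_sdiff, Finset.mem_insert]
        constructor
        · rintro ⟨h2, h3 | h3, h4⟩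
          · exact absurd h3 h2
          · exact ⟨h3, h4⟩
        · rintro ⟨h2, h3⟩
          exact ⟨fun h4 => hvW' (h4 ▸ h2), Or.inr h2, h3⟩
      rw [h2] at h1
      rw [h1]
      ring
    have hC : pw (fz E) (q + 1) (insert v W') =
        ∑ S ∈ W'.powerset, fz E S * pw (fz E) q (insert v W' \ S) +
        ∑ S ∈ W'.powerset, fz E (insert v S) * pw (fz E) q (insert v W' \ insert v S) := by
      rw [hp]
      unfold kcol_cv
      rw [Finset.sum_powerset_insert hvW']
    rw [hC, hA, hB]
    unfold kcol_cv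
    push_cast
    ring

end Pool.Agent.Helper89.UB
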