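import Pool.Agent.Helper89.UB.Stmts

set_option autoImplicit false

open Finset

namespace Pool.Agent.Helper89.UB

theorem kb2_dg_le {n : ℕ} (E : Finset (Finset (Fin n))) (U : Finset (Fin n)) (v : Fin n)
    (hE : ∀ e ∈ E, e.card = 2) : dg E U v ≤ deg2 E v := by
  unfold dg deg2
  apply Finset.card_le_card_of_injOn (fun u => ({v, u} : Finset (Fin n)))
  · intro u hu
    have hu' := (Finset.mem_filter.1 (Finset.mem_coe.1 hu)).2
    apply Finset.mem_coe.2
    apply Finset.mem_filter.2
    exact ⟨hu'.1, hE _ hu'.1, Finset.mem_insert_self _ _⟩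
  · intro u hu w hw huw
    have hu' := (Finset.mem_filter.1 (Finset.mem_coe.1 hu)).2
    have h1 : u ∈ ({v, w} : Finset (Fin n)) := by
      rw [← show ({v, u} : Finset (Fin n)) = {v, w} from huw]
      simp
    rcases Finset.mem_insert.1 h1 with h | h
    · exact absurd h hu'.2
    · exact Finset.mem_singleton.1 h

theorem kb2_exp (y : ℝ) (h0 : 0 ≤ y) (h1 : y ≤ 1) : Real.exp y ≤ 1 + y + 3 / 4 * y ^ 2 := by
  have h := Real.exp_bound' h0 h1 (n := 2) (by norm_num)
  have h2 : ∑ m ∈ range 2, y ^ m / (m.factorial : ℝ) = 1 + y := by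
    simp [Finset.sum_range_succ]
  rw [h2] at h
  have h3 : y ^ 2 * ((2 : ℕ) + 1) / ((Nat.factorial 2 : ℕ) * (2 : ℕ)) = 3 / 4 * y ^ 2 := by
    simp [Nat.factorial]
    ring
  rw [h3] at h
  exact h

theorem st_KB2 (hETK : ST_ETK) (hETN : ST_ETN) (hKB1 : ST_KB1) : ST_KB2 := by
  intro n Δ E x hE hdeg hx hxD v
  have hAl0 : Al E ∅ := by
    intro e he hsub
    have := hE e he
    rw [Finset.subset_empty.1 hsub] at this
    simp at this
  have hAl1 : ∀ u : Fin n, Al E {u} := by
    intro u e he hsub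
    have h1 := hE e he
    have h2 := Finset.card_le_card hsub
    simp at h2
    omega
  have hf0 : fz E ∅ = 1 := by simp [fz, hAl0]
  have hf1 : ∀ u : Fin n, fz E {u} = 1 := by
    intro u
    simp [fz, hAl1 u]
  have hk0 : ∀ v : Fin n, kap E v ∅ = 1 := by
    intro v
    have h := quo_spec (fz E) (fun B => fz E (insert v B)) hf0 ∅
    simp only [Finset.powerset_empty, Finset.sum_singleton, Finset.sdiff_self, hf0, mul_one,
      insert_empty_eq, hf1] at h
    unfold kap
    exact h.symm
  have hk1 : ∀ u, u ≠ v → kap E v {u} = if ({v, u} : Finset (Fin n)) ∈ E then -1 else 0 := by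
    intro u huv
    have h := quo_spec (fz E) (fun B => fz E (insert v B)) hf0 {u}
    have hp : ({u} : Finset (Fin n)).powerset = {∅, {u}} := by
      ext S
      simp [Finset.subset_singleton_iff]
    have hne : (∅ : Finset (Fin n)) ≠ {u} := (Finset.singleton_ne_empty u).symm
    rw [hp, Finset.sum_pair hne] at h
    have h0 := hk0 v
    unfold kap at h0
    rw [h0] at h
    simp only [Finset.sdiff_empty, Finset.sdiff_self, hf1, mul_one, hf0] at h
    have h2 : fz E {v, u} = if ({v, u} : Finset (Fin n)) ∈ E then 0 else 1 := by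
      unfold fz
      by_cases hm : ({v, u} : Finset (Fin n)) ∈ E
      · have : ¬ Al E {v, u} := fun hA => hA _ hm (Finset.Subset.refl _)
        simp [hm, this]
      · have : Al E {v, u} := by
          intro e he hsub
          have hc : ({v, u} : Finset (Fin n)).card ≤ e.card := by
            rw [hE e he]
            exact Finset.card_le_two
          have := Finset.eq_of_subset_of_card_le hsub hc
          rw [this] at he
          exact hm he
        simp [hm, this]
    unfold kap
    have h3 : quo (fz E) (fun B => fz E (insert v B)) {u} = fz E {v, u} - 1 := by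
      linarith
    rw [h3, h2]
    split_ifs <;> norm_num
  refine ⟨hk0 v, hk1, ?_⟩
  intro U hvU
  set N : Finset (Fin n) := univ.filter (fun u => ({v, u} : Finset (Fin n)) ∈ E ∧ u ≠ v) with hN
  set d : ℕ := dg E U v with hd
  have hNU : (N ∩ U).card = d := by
    rw [hd]
    unfold dg
    congr 1
    ext u
    simp [hN, and_comm]
  have hdD : (d : ℝ) ≤ (Δ : ℝ) := by
    exact_mod_cast (kb2_dg_le E U v hE).trans (hdeg v)
  have hD0 : (0 : ℝ) ≤ (Δ : ℝ) := Nat.cast_nonneg _
  have hd0 : (0 : ℝ) ≤ (d : ℝ) := Nat.cast_nonneg _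
  -- full norm
  have hfull : ∑ S ∈ U.powerset, |(kap E v S : ℝ)| * x ^ S.card ≤
      ∏ u ∈ N ∩ U, (1 + x * ∑ S ∈ (U.erase u).powerset, |(kap E u S : ℝ)| * x ^ S.card) := by
    have h1 := hETN n E hAl0 x hx N U
    refine le_trans (le_of_eq ?_) h1
    apply Finset.sum_congr rfl
    intro S hS
    have hvS : v ∉ S := fun h => hvU (Finset.mem_powerset.1 hS h)
    rw [hETK n E hE v S hvS]
  set β : ℝ := 1 + 21 / 10 * (x * Δ) with hβ
  have hxD0 : 0 ≤ x * Δ := mul_nonneg hx hD0
  have hβ1 : 1 ≤ β := by rw [hβ]; linarith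
  have hβ2 : β ≤ 1.021 := by rw [hβ]; linarith
  have hK : ∀ u, ∑ S ∈ (U.erase u).powerset, |(kap E u S : ℝ)| * x ^ S.card ≤ β := by
    intro u
    have h1 := hKB1 n Δ E x hE hdeg hx hxD u (U.erase u) (Finset.notMem_erase u U)
    refine h1.trans ?_
    have h2 : (1 + 2 * x) ^ (dg E (U.erase u) u) ≤ (1 + 2 * x) ^ Δ :=
      pow_le_pow_right₀ (by linarith) ((kb2_dg_le E (U.erase u) u hE).trans (hdeg u))
    refine h2.trans ?_
    have h3 : (1 + 2 * x) ^ Δ ≤ Real.exp (2 * (x * Δ)) := by
      have h4 : (1 + 2 * x) ≤ Real.exp (2 * x) := by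
        have := Real.add_one_le_exp (2 * x)
        linarith
      calc (1 + 2 * x) ^ Δ ≤ (Real.exp (2 * x)) ^ Δ := pow_le_pow_left₀ (by linarith) h4 Δ
        _ = Real.exp (2 * (x * Δ)) := by
          rw [← Real.exp_nat_mul]
          congr 1
          ring
    refine h3.trans ?_
    have h5 := kb2_exp (2 * (x * Δ)) (by linarith) (by linarith)
    refine h5.trans ?_
    rw [hβ]
    nlinarith
  have hKnn : ∀ u, 0 ≤ ∑ S ∈ (U.erase u).powerset, |(kap E u S : ℝ)| * x ^ S.card := by
    intro u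
    apply Finset.sum_nonneg
    intro S _
    positivity
  have hprod : ∏ u ∈ N ∩ U, (1 + x * ∑ S ∈ (U.erase u).powerset, |(kap E u S : ℝ)| * x ^ S.card) ≤
      (1 + x * β) ^ d := by
    rw [← hNU]
    rw [← Finset.prod_const]
    apply Finset.prod_le_prod
    · intro u _
      have := mul_nonneg hx (hKnn u)
      linarith
    · intro u _
      have := mul_le_mul_of_nonneg_left (hK u) hx
      linarith
  have hxb : 0 ≤ x * β := mul_nonneg hx (by linarith)
  have hpow : (1 + x * β) ^ d ≤ Real.exp (d * (x * β)) := by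
    have h4 : (1 + x * β) ≤ Real.exp (x * β) := by
      have := Real.add_one_le_exp (x * β)
      linarith
    calc (1 + x * β) ^ d ≤ (Real.exp (x * β)) ^ d := pow_le_pow_left₀ (by linarith) h4 d
      _ = Real.exp (d * (x * β)) := by
        rw [← Real.exp_nat_mul]
  have hdx : (d : ℝ) * x ≤ Δ * x := mul_le_mul_of_nonneg_right hdD hx
  have hdx0 : 0 ≤ (d : ℝ) * x := mul_nonneg hd0 hx
  have hdxb : (d : ℝ) * (x * β) ≤ 1 := by
    have : (d : ℝ) * (x * β) = (d * x) * β := by ring
    rw [this]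
    nlinarith
  have hexp := kb2_exp ((d : ℝ) * (x * β)) (mul_nonneg hd0 hxb) hdxb
  have htot : ∑ S ∈ U.powerset, |(kap E v S : ℝ)| * x ^ S.card ≤
      1 + (d : ℝ) * (x * β) + 3 / 4 * ((d : ℝ) * (x * β)) ^ 2 :=
    hfull.trans (hprod.trans (hpow.trans hexp))
  -- the small terms
  have hsplit := Finset.sum_filter_add_sum_filter_not U.powerset (fun S => 2 ≤ S.card)
    (fun S => |(kap E v S : ℝ)| * x ^ S.card)
  have hsmall : 1 + (d : ℝ) * x ≤
      ∑ S ∈ U.powerset.filter (fun S => ¬ 2 ≤ S.card), |(kap E v S : ℝ)| * x ^ S.card := by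
    have hsub : insert ∅ (U.image (fun u => ({u} : Finset (Fin n)))) ⊆
        U.powerset.filter (fun S => ¬ 2 ≤ S.card) := by
      intro S hS
      rcases Finset.mem_insert.1 hS with rfl | hS
      · simp
      · obtain ⟨u, hu, rfl⟩ := Finset.mem_image.1 hS
        simp [hu]
    refine le_trans (le_of_eq ?_) (Finset.sum_le_sum_of_subset_of_nonneg hsub ?_)
    · rw [Finset.sum_insert]
      · rw [hk0 v]
        rw [Finset.sum_image]
        · have h1 : ∀ u ∈ U, |(kap E v {u} : ℝ)| * x ^ ({u} : Finset (Fin n)).card =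
              if ({v, u} : Finset (Fin n)) ∈ E ∧ u ≠ v then x else 0 := by
            intro u hu
            have huv : u ≠ v := fun h => hvU (h ▸ hu)
            rw [hk1 u huv]
            by_cases hm : ({v, u} : Finset (Fin n)) ∈ E
            · simp [hm, huv]
            · simp [hm]
          rw [Finset.sum_congr rfl h1, ← Finset.sum_filter, Finset.sum_const, nsmul_eq_mul]
          simp [hd, dg]
        · intro a _ b _ hab
          exact Finset.singleton_injective hab
      · intro hmem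
        obtain ⟨u, _, hu⟩ := Finset.mem_image.1 hmem
        exact Finset.singleton_ne_empty u hu
    · intro S _ _
      positivity
  have hβe : (d : ℝ) * (x * β) = d * x + 21 / 10 * (d * Δ * x ^ 2) := by
    rw [hβ]; ring
  have hsq : ((d : ℝ) * (x * β)) ^ 2 ≤ 1.1 * (d * Δ * x ^ 2) := by
    have h1 : ((d : ℝ) * (x * β)) ^ 2 = (d * x) * (d * x) * β ^ 2 := by ring
    have h2 : β ^ 2 ≤ 1.1 := by nlinarith
    have h3 : (d * x) * (d * x) ≤ (d * x) * (Δ * x) := mul_le_mul_of_nonneg_left hdx hdx0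
    have h4 : 0 ≤ ((d : ℝ) * x) * (Δ * x) := mul_nonneg hdx0 (mul_nonneg hD0 hx)
    rw [h1]
    calc (d * x) * (d * x) * β ^ 2 ≤ ((d * x) * (Δ * x)) * 1.1 := by
          apply mul_le_mul h3 h2 (by positivity) h4
      _ = 1.1 * (d * Δ * x ^ 2) := by ring
  have h0 : 0 ≤ (d : ℝ) * Δ * x ^ 2 := by positivity
  have hfin : 8 * (d : ℝ) * Δ * x ^ 2 = 8 * (d * Δ * x ^ 2) := by ring
  rw [hfin]
  linarith

end Pool.Agent.Helper89.UB
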